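import Pool.Agent.Helper88.EXT.Defs

/-!
# Lemmas 2, 3 and the main lemma (piece EXT-E of MP_9b0a74_lc), from Lemma 4
-/

open Encodable

namespace EXT88

variable {U : ℕ → Prop}

/-- The statement of Lemma 4. -/
def Lemma4 (U : ℕ → Prop) : Prop :=
  ∀ {R : ℕ → ℕ → Prop} (_ : SPO R) (S : Idl U)
    (_ : Dl S.car (fun x : ℕ × ℕ => R x.1 x.2)) (C D : ℕ → Prop)
    (_ : Dl S.car C) (_ : Sg S.car D) (_ : ∀ x, D x → C x)
    (_ : ∀ x y, C x → D y → R x y → D x)
    (_ : ∀ x, D x → ∀ T : Idl U, S ≤ T → Sol R (fun y => C y ∧ R y x) T)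
    (_ : ∀ T : Idl U, S ≤ T → ∀ Q : ℕ → Prop, Dl T.car Q → (∀ x, D x → Q x) →
      (∀ x, Q x → C x) → (∀ x y, C x → Q y → R x y → Q x) → Sol R (fun x => C x ∧ ¬ Q x) T),
    ∃ T : Idl U, S ≤ T ∧ ∃ L : ℕ → ℕ → Prop, Dl T.car (fun x : ℕ × ℕ => L x.1 x.2) ∧ SPO L ∧
      (∀ x y, C x → C y → x ≠ y → L x y ∨ L y x) ∧ (∀ x y, C x → C y → R x y → L x y) ∧
      ∀ f : ℕ → ℕ, Desc L C f → U ∈ Adj T.car f ∨
        ((∀ i, ¬ D (f i)) ∧ Sg (Adj T.car f) (fun x => C x ∧ ¬ D x))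

theorem Sol.anti {R : ℕ → ℕ → Prop} {C : ℕ → Prop} {S T : Idl U} (hST : S ≤ T) (h : Sol R C T) :
    Sol R C S := by
  obtain ⟨T', h1, h2⟩ := h
  exact ⟨T', le_trans hST h1, h2⟩

theorem Sol.sub {R : ℕ → ℕ → Prop} {C C' : ℕ → Prop} {S : Idl U} (hC : ∀ x, C' x → C x)
    (h : Sol R C S) : Sol R C' S := by
  obtain ⟨T, h1, L, h2, h3, h4, h5, h6⟩ := h
  exact ⟨T, h1, L, h2, h3, fun x y hx hy => h4 x y (hC x hx) (hC y hy),
    fun x y hx hy => h5 x y (hC x hx) (hC y hy), fun f hf => h6 f ⟨fun i => hC _ (hf.1 i), hf.2⟩⟩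

theorem Sol.empty {R : ℕ → ℕ → Prop} (hR : SPO R) {C : ℕ → Prop} {S : Idl U}
    (hRS : Dl S.car (fun x : ℕ × ℕ => R x.1 x.2)) (hC : ∀ x, ¬ C x) : Sol R C S :=
  ⟨S, le_refl S, R, hRS, hR, fun x _ hx => absurd hx (hC x), fun x _ hx => absurd hx (hC x),
    fun _ hf => absurd (hf.1 0) (hC _)⟩

/-- The sum of two solutions. -/
theorem Sol.sum {R : ℕ → ℕ → Prop} {C Q : ℕ → Prop} {S : Idl U} (hQ : Dl S.car Q)
    (hdown : ∀ x y, C x → C y → Q y → R x y → Q x)
    (h1 : Sol R (fun x => C x ∧ Q x) S) (h2 : ∀ T : Idl U, S ≤ T → Sol R (fun x => C x ∧ ¬ Q x) T) :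
    Sol R C S := by
  obtain ⟨T, hST, L₁, hL₁, hS₁, htot₁, hext₁, hcod₁⟩ := h1
  obtain ⟨T', hTT', L₂, hL₂, hS₂, htot₂, hext₂, hcod₂⟩ := h2 T hST
  have hQ' : Dl T'.car Q := hQ.mono (le_trans hST hTT')
  have hL₁' : Dl T'.car (fun x : ℕ × ℕ => L₁ x.1 x.2) := hL₁.mono hTT'
  have hQ1 : Dl T'.car (fun x : ℕ × ℕ => Q x.1) := T'.sig.dcomp hQ' Primrec.fst
  have hQ2 : Dl T'.car (fun x : ℕ × ℕ => Q x.2) := T'.sig.dcomp hQ' Primrec.snd
  refine ⟨T', le_trans hST hTT', fun x y => (Q x ∧ ¬ Q y) ∨ (Q x ∧ Q y ∧ L₁ x y) ∨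
    (¬ Q x ∧ ¬ Q y ∧ L₂ x y), ?_, ?_, ?_, ?_, ?_⟩
  · exact T'.sig.dor (T'.sig.dand hQ1 hQ2.not) (T'.sig.dor (T'.sig.dand hQ1 (T'.sig.dand hQ2 hL₁'))
      (T'.sig.dand hQ1.not (T'.sig.dand hQ2.not hL₂)))
  · constructor
    · intro x
      have := hS₁.irr x
      have := hS₂.irr x
      tauto
    · intro x y z
      have := hS₁.tr x y z
      have := hS₂.tr x y z
      tauto
  · intro x y hx hy hxy
    have h1 := htot₁ x y
    have h2 := htot₂ x y
    by_cases hqx : Q x <;> by_cases hqy : Q y <;> simp_all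
  · intro x y hx hy hR
    have h1 := hext₁ x y
    have h2 := hext₂ x y
    have h3 := hdown x y hx hy
    by_cases hqx : Q x <;> by_cases hqy : Q y <;> simp_all
  · intro f hf
    by_cases hq : ∃ k, Q (f k)
    · obtain ⟨k, hk⟩ := hq
      have hqk : ∀ i, Q (f (k + i)) := by
        intro i
        induction i with
        | zero => exact hk
        | succ i ih =>
          have := hf.2 (k + i)
          rw [show k + (i + 1) = k + i + 1 by omega]
          tauto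
      have hd : Desc L₁ (fun x => C x ∧ Q x) (fun i => f (k + i)) := by
        refine ⟨fun i => ⟨hf.1 _, hqk i⟩, fun i => ?_⟩
        have h1 := hf.2 (k + i)
        have h2 := hqk i
        have h3 := hqk (i + 1)
        change L₁ (f (k + (i + 1))) (f (k + i))
        rw [show k + (i + 1) = k + i + 1 by omega] at h3 ⊢
        tauto
      have := hcod₁ _ hd
      exact Adj.mono hTT' f (adj_shift T.sig f k this)
    · push Not at hq
      have hd : Desc L₂ (fun x => C x ∧ ¬ Q x) f := by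
        refine ⟨fun i => ⟨hf.1 _, hq i⟩, fun i => ?_⟩
        have h1 := hf.2 i
        have h2 := hq i
        have h3 := hq (i + 1)
        tauto
      exact hcod₂ _ hd

/-- Lemma 4 with `D = C`. -/
theorem sol_of_all (h4 : Lemma4 U) {R : ℕ → ℕ → Prop} (hR : SPO R) (S : Idl U)
    (hRS : Dl S.car (fun x : ℕ × ℕ => R x.1 x.2)) {C : ℕ → Prop} (hC : Dl S.car C)
    (ha : ∀ x, C x → ∀ T : Idl U, S ≤ T → Sol R (fun y => C y ∧ R y x) T) : Sol R C S := by
  obtain ⟨T, hST, L, hL, hSL, htot, hext, hf⟩ := h4 hR S hRS C C hC hC.1 (fun x h => h)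
    (fun _ _ hx _ _ => hx) ha (fun T hT Q hQ h1 h2 h3 =>
      Sol.empty hR (hRS.mono hT) fun x hx => hx.2 (h1 x hx.1))
  refine ⟨T, hST, L, hL, hSL, htot, hext, fun f hd => ?_⟩
  rcases hf f hd with h | h
  · exact h
  · exact absurd (hd.1 0) (h.1 0)

/-- Lemma 2. -/
theorem lemma2 (h4 : Lemma4 U) {R : ℕ → ℕ → Prop} (hR : SPO R) (S : Idl U)
    (hRS : Dl S.car (fun x : ℕ × ℕ => R x.1 x.2)) {C : ℕ → Prop} (hC : Dl S.car C)
    (hns : ¬ Sol R C S) : ∃ a, C a ∧ ∃ T : Idl U, S ≤ T ∧ ¬ Sol R (fun y => C y ∧ R y a) T := by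
  by_contra hcon
  push Not at hcon
  exact hns (sol_of_all h4 hR S hRS hC hcon)

/-- `f` is descending, starts with `ρ` and stays in `C` afterwards. -/
def Thr (R : ℕ → ℕ → Prop) (ρ : List ℕ) (C : ℕ → Prop) (f : ℕ → ℕ) : Prop :=
  (∀ i < ρ.length, ρ[i]? = some (f i)) ∧ (∀ i, ρ.length ≤ i → C (f i)) ∧ ∀ i, R (f (i + 1)) (f i)

theorem Thr.take {R : ℕ → ℕ → Prop} {ρ : List ℕ} {C : ℕ → Prop} {f : ℕ → ℕ} (h : Thr R ρ C f)
    (s : ℕ) : ρ.take s = pre f (min s ρ.length) := by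
  apply List.ext_getElem?
  intro i
  rw [List.getElem?_take, pre_getElem?]
  split_ifs with h1 h2 h2
  · exact h.1 i (by omega)
  · rw [List.getElem?_eq_none_iff]; omega
  · omega
  · rfl

theorem pre_pairwise {R : ℕ → ℕ → Prop} (hR : SPO R) {f : ℕ → ℕ} (h : ∀ i, R (f (i + 1)) (f i))
    (s : ℕ) : (pre f s).Pairwise (fun a b => R b a) := by
  have hlt : ∀ i j, i < j → R (f j) (f i) := by
    intro i j hij
    induction j, hij using Nat.le_induction with
    | base => exact h i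
    | succ j _ ih => exact hR.tr _ _ _ (h j) ih
  unfold pre
  rw [List.pairwise_map]
  exact List.pairwise_lt_range.imp fun {a b} hab => hlt a b hab

/-- the extension of `σ` by `τ` wrongly enumerates something -/
def Bad (U : ℕ → Prop) (R : ℕ → ℕ → Prop) (σ : List ℕ) (C : ℕ → Prop) (B : List ℕ × ℕ → Prop)
    (τ : List ℕ) : Prop :=
  (∀ z ∈ τ, C z) ∧ τ.Pairwise (fun a b => R b a) ∧ ∃ s n, ¬ U n ∧ B ((σ ++ τ).take s, n)

/-- being a descending list in `C` is a `Σ` property -/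
theorem sg_desc {T : Idl U} {R : ℕ → ℕ → Prop} {C : ℕ → Prop} (hC : Sg T.car C)
    (hR : Sg T.car (fun x : ℕ × ℕ => R x.1 x.2)) :
    Sg T.car (fun τ : List ℕ => (∀ z ∈ τ, C z) ∧ τ.Pairwise (fun a b => R b a)) := by
  refine T.sig.and' ?_ ?_
  · exact T.sig.ball_mem (p := fun (_ : List ℕ) (z : ℕ) => C z) (l := fun τ : List ℕ => τ)
      (T.sig.comp (f := fun x : List ℕ × ℕ => x.2) hC Primrec.snd) Primrec.id
  · exact T.sig.pairwise (p := fun (_ : List ℕ) (a b : ℕ) => R b a) (l := fun τ : List ℕ => τ)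
      (T.sig.comp (f := fun x : List ℕ × ℕ × ℕ => (x.2.2, x.2.1)) hR
        (Primrec.pair (Primrec.snd.comp Primrec.snd) (Primrec.fst.comp Primrec.snd))) Primrec.id

/-- `B` on the initial segments of `σ ++ τ` -/
theorem sg_app {T : Idl U} (σ : List ℕ) {B : List ℕ × ℕ → Prop} (hB : Sg T.car B) :
    Sg T.car (fun x : (List ℕ × ℕ) × ℕ => B ((σ ++ x.1.1).take x.1.2, x.2)) := by
  refine T.sig.comp (f := fun x : (List ℕ × ℕ) × ℕ => ((σ ++ x.1.1).take x.1.2, x.2)) hB ?_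
  refine Primrec.pair ?_ Primrec.snd
  exact Primrec.list_take.comp (Primrec.snd.comp Primrec.fst)
    (Primrec.list_append.comp (Primrec.const σ) (Primrec.fst.comp Primrec.fst))

theorem sg_bad {T : Idl U} (hU : Sg T.car (fun n : ℕ => ¬ U n)) {R : ℕ → ℕ → Prop}
    (hR : Sg T.car (fun x : ℕ × ℕ => R x.1 x.2)) (σ : List ℕ) {C : ℕ → Prop} (hC : Sg T.car C)
    {B : List ℕ × ℕ → Prop} (hB : Sg T.car B) :
    Sg T.car (fun τ : List ℕ => Bad U R σ C B τ) := by
  have h1 : Sg T.car (fun x : (List ℕ × ℕ) × ℕ => ¬ U x.2 ∧ B ((σ ++ x.1.1).take x.1.2, x.2)) :=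
    T.sig.and' (T.sig.comp (p := fun n : ℕ => ¬ U n) (f := fun x : (List ℕ × ℕ) × ℕ => x.2) hU
      Primrec.snd) (sg_app σ hB)
  have h2 : Sg T.car (fun x : List ℕ × ℕ => ∃ n, ¬ U n ∧ B ((σ ++ x.1).take x.2, n)) :=
    T.sig.ex' (p := fun (x : List ℕ × ℕ) (n : ℕ) => ¬ U n ∧ B ((σ ++ x.1).take x.2, n)) h1
  have h3 : Sg T.car (fun τ : List ℕ => ∃ s n, ¬ U n ∧ B ((σ ++ τ).take s, n)) :=
    T.sig.ex' (p := fun (τ : List ℕ) (s : ℕ) => ∃ n, ¬ U n ∧ B ((σ ++ τ).take s, n)) h2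
  exact (T.sig.and' (sg_desc hC hR) h3).congr fun τ => by unfold Bad; tauto

/-- Lemma 3. -/
theorem lemma3 (h4 : Lemma4 U) {R : ℕ → ℕ → Prop} (hR : SPO R) (T : Idl U)
    (hU : Sg T.car (fun n : ℕ => ¬ U n)) (hRT : Dl T.car (fun x : ℕ × ℕ => R x.1 x.2))
    (σ : List ℕ) {C : ℕ → Prop} (hC : Dl T.car C) (hns : ¬ Sol R C T)
    {B : List ℕ × ℕ → Prop} (hB : Sg T.car B) :
    ∃ (τ : List ℕ) (C' : ℕ → Prop) (T' : Idl U), T ≤ T' ∧ Dl T'.car C' ∧ (∀ x ∈ τ, C x) ∧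
      τ.Pairwise (fun a b => R b a) ∧ (∀ x, C' x → C x) ∧ (∀ x, C' x → ∀ y ∈ τ, R x y) ∧
      ¬ Sol R C' T' ∧ ∀ f : ℕ → ℕ, Thr R (σ ++ τ) C' f → ¬ ∀ n, (U n ↔ ∃ s, B (pre f s, n)) := by
  -- wrong enumeration
  have hwrong : ∀ (τ : List ℕ) (C' : ℕ → Prop), (∃ s n, ¬ U n ∧ B ((σ ++ τ).take s, n)) →
      ∀ f : ℕ → ℕ, Thr R (σ ++ τ) C' f → ¬ ∀ n, (U n ↔ ∃ s, B (pre f s, n)) := by
    rintro τ C' ⟨s, n, hn, hb⟩ f hf hall
    rw [hf.take s] at hb
    exact hn ((hall n).2 ⟨_, hb⟩)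
  by_cases h0 : ∃ s n, ¬ U n ∧ B (σ.take s, n)
  · refine ⟨[], C, T, le_refl T, hC, by simp, List.Pairwise.nil, fun x h => h, by simp, hns, ?_⟩
    apply hwrong
    simpa using h0
  by_cases h1 : ∃ (τ : List ℕ) (y : ℕ), Bad U R σ C B (τ ++ [y]) ∧ ∃ T' : Idl U, T ≤ T' ∧
      ¬ Sol R (fun x => C x ∧ R x y) T'
  · obtain ⟨τ, y, ⟨hb1, hb2, hb3⟩, T', hTT', hns'⟩ := h1
    refine ⟨τ ++ [y], fun x => C x ∧ R x y, T', hTT', ?_, hb1, hb2, fun x h => h.1, ?_, hns', ?_⟩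
    · refine T'.sig.dand (hC.mono hTT') ?_
      exact T'.sig.dcomp (f := fun x : ℕ => (x, y)) (hRT.mono hTT')
        (Primrec.pair Primrec.id (Primrec.const y))
    · rintro x ⟨_, hx⟩ z hz
      rw [List.mem_append, List.mem_singleton] at hz
      rcases hz with hz | rfl
      · rw [List.pairwise_append] at hb2
        exact hR.tr _ _ _ hx (hb2.2.2 z hz y (List.mem_singleton.2 rfl))
      · exact hx
    · exact hwrong _ _ hb3
  push Not at h1
  -- the set `D`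
  let D : ℕ → Prop := fun x => C x ∧ ∃ q : List ℕ × ℕ, Bad U R σ C B (q.1 ++ [q.2]) ∧
    (x = q.2 ∨ R x q.2)
  have hD : Sg T.car D := by
    have hl : Primrec (fun x : ℕ × List ℕ × ℕ => x.2.1 ++ [x.2.2]) :=
      Primrec.list_append.comp (Primrec.fst.comp Primrec.snd)
        (Primrec.list_cons.comp (Primrec.snd.comp Primrec.snd) (Primrec.const []))
    refine T.sig.and' hC.1 (T.sig.ex' (p := fun (x : ℕ) (q : List ℕ × ℕ) =>
      Bad U R σ C B (q.1 ++ [q.2]) ∧ (x = q.2 ∨ R x q.2)) ?_)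
    refine T.sig.and' ?_ (T.sig.or' ?_ ?_)
    · exact T.sig.comp (sg_bad hU hRT.1 σ hC.1 hB) hl
    · apply T.sig.primPred
      exact Primrec.eq.comp Primrec.fst (Primrec.snd.comp Primrec.snd)
    · exact T.sig.comp (f := fun x : ℕ × List ℕ × ℕ => (x.1, x.2.2)) hRT.1
        (Primrec.pair Primrec.fst (Primrec.snd.comp Primrec.snd))
  have hDC : ∀ x, D x → C x := fun x h => h.1
  have hdown : ∀ x y, C x → D y → R x y → D x := by
    rintro x y hx ⟨_, q, hq, hqy⟩ hxy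
    refine ⟨hx, q, hq, Or.inr ?_⟩
    rcases hqy with rfl | h
    · exact hxy
    · exact hR.tr _ _ _ hxy h
  have ha : ∀ x, D x → ∀ T' : Idl U, T ≤ T' → Sol R (fun y => C y ∧ R y x) T' := by
    rintro x ⟨_, q, hq, hqx⟩ T' hT'
    refine Sol.sub ?_ (h1 q.1 q.2 hq T' hT')
    rintro y ⟨hy, hyx⟩
    refine ⟨hy, ?_⟩
    rcases hqx with rfl | h
    · exact hyx
    · exact hR.tr _ _ _ hyx h
  by_cases h2 : ∃ T' : Idl U, T ≤ T' ∧ ∃ Q : ℕ → Prop, Dl T'.car Q ∧ (∀ x, D x → Q x) ∧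
      (∀ x, Q x → C x) ∧ (∀ x y, C x → Q y → R x y → Q x) ∧ ¬ Sol R (fun x => C x ∧ ¬ Q x) T'
  · obtain ⟨T', hTT', Q, hQ, hDQ, hQC, hQdown, hns'⟩ := h2
    have hC'' : Dl T'.car (fun x => C x ∧ ¬ Q x) := T'.sig.dand (hC.mono hTT') hQ.not
    -- some `n` in `U` is never enumerated
    have hn : ∃ n, U n ∧ ∀ (τ : List ℕ) (s : ℕ), (∀ z ∈ τ, C z ∧ ¬ Q z) →
        τ.Pairwise (fun a b => R b a) → ¬ B ((σ ++ τ).take s, n) := by
      by_contra hcon
      push Not at hcon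
      apply T'.avoid
      have hUe : ∀ n, (∃ q : List ℕ × ℕ, ((∀ z ∈ q.1, C z ∧ ¬ Q z) ∧
          q.1.Pairwise (fun a b => R b a)) ∧ B ((σ ++ q.1).take q.2, n)) ↔ U n := by
        intro n
        constructor
        · rintro ⟨⟨τ, s⟩, ⟨hτ1, hτ2⟩, hb⟩
          by_contra hnU
          rcases List.eq_nil_or_concat τ with rfl | ⟨τ', y, hτ⟩
          · exact h0 ⟨s, n, hnU, by simpa using hb⟩
          · rw [List.concat_eq_append] at hτ
            subst hτ
            have hy : y ∈ τ' ++ [y] := by simp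
            apply (hτ1 y hy).2
            apply hDQ
            exact ⟨(hτ1 y hy).1, (τ', y), ⟨fun z hz => (hτ1 z hz).1, hτ2, s, n, hnU, hb⟩,
              Or.inl rfl⟩
        · intro hn
          obtain ⟨τ, s, hτ1, hτ2, hb⟩ := hcon n hn
          exact ⟨(τ, s), ⟨hτ1, hτ2⟩, hb⟩
      rw [← sg_nat]
      refine Sg.congr ?_ hUe
      refine T'.sig.ex' (p := fun (n : ℕ) (q : List ℕ × ℕ) => ((∀ z ∈ q.1, C z ∧ ¬ Q z) ∧
          q.1.Pairwise (fun a b => R b a)) ∧ B ((σ ++ q.1).take q.2, n)) ?_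
      refine T'.sig.and' ?_ ?_
      · exact T'.sig.comp (f := fun x : ℕ × List ℕ × ℕ => x.2.1) (sg_desc hC''.1 (hRT.mono hTT').1)
          (Primrec.fst.comp Primrec.snd)
      · exact T'.sig.comp (f := fun x : ℕ × List ℕ × ℕ => (x.2, x.1))
          (sg_app σ (Sg.mono hTT' hB)) (Primrec.pair Primrec.snd Primrec.fst)
    obtain ⟨n, hnU, hn⟩ := hn
    refine ⟨[], fun x => C x ∧ ¬ Q x, T', hTT', hC'', by simp, List.Pairwise.nil, fun x h => h.1,
      by simp, hns', ?_⟩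
    intro f hf hall
    obtain ⟨s, hs⟩ := (hall n).1 hnU
    rw [List.append_nil] at hf
    rcases le_total s σ.length with hle | hle
    · refine hn [] s (by simp) List.Pairwise.nil ?_
      rw [List.append_nil, hf.take s, min_eq_left hle]
      exact hs
    · have h3 : σ = (pre f s).take σ.length := by
        have := hf.take σ.length
        rw [List.take_length, min_self] at this
        rw [pre_take f hle]
        exact this
      have h4 : σ ++ (pre f s).drop σ.length = pre f s := by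
        conv_rhs => rw [← List.take_append_drop σ.length (pre f s), ← h3]
      refine hn ((pre f s).drop σ.length) s ?_ ?_ ?_
      · intro z hz
        rw [List.mem_iff_getElem?] at hz
        obtain ⟨i, hi⟩ := hz
        rw [List.getElem?_drop, pre_getElem?] at hi
        split_ifs at hi
        obtain rfl := Option.some.inj hi
        exact hf.2.1 _ (Nat.le_add_right _ _)
      · exact (pre_pairwise hR hf.2.2 s).sublist (List.drop_sublist _ _)
      · rw [h4, List.take_of_length_le (by simp)]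
        exact hs
  · -- contradiction
    exfalso
    push Not at h2
    have hb : ∀ T' : Idl U, T ≤ T' → ∀ Q : ℕ → Prop, Dl T'.car Q → (∀ x, D x → Q x) →
      (∀ x, Q x → C x) → (∀ x y, C x → Q y → R x y → Q x) → Sol R (fun x => C x ∧ ¬ Q x) T' := h2
    by_cases h3 : ∃ T' : Idl U, T ≤ T' ∧ Dl T'.car D
    · obtain ⟨T', hTT', hDl⟩ := h3
      apply hns
      refine Sol.anti hTT' (Sol.sum hDl (fun x y hx _ hy hxy => hdown x y hx hy hxy) ?_ ?_)
      · refine Sol.sub (C := D) (fun x h => h.2) ?_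
        refine sol_of_all h4 hR T' (hRT.mono hTT') hDl ?_
        intro x hx T'' hT''
        exact Sol.sub (fun y hy => ⟨hDC y hy.1, hy.2⟩) (ha x hx T'' (le_trans hTT' hT''))
      · intro T'' hT''
        exact hb T'' (le_trans hTT' hT'') D (hDl.mono hT'') (fun x h => h) hDC hdown
    · push Not at h3
      obtain ⟨T₁, hT₁, L, hL, hSL, htot, hext, hf⟩ := h4 hR T hRT C D hC hD hDC hdown ha hb
      apply hns
      refine ⟨T₁, hT₁, L, hL, hSL, htot, hext, fun f hd => ?_⟩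
      by_contra hcon
      rcases hf f hd with h | ⟨_, h⟩
      · exact hcon h
      · refine h3 (T₁.adj f hcon) (le_trans hT₁ (T₁.le_adj f hcon)) ⟨?_, ?_⟩
        · exact Sg.mono (le_trans hT₁ (T₁.le_adj f hcon)) hD
        · refine ((T₁.adj f hcon).sig.or' (Sg.mono (le_trans hT₁ (T₁.le_adj f hcon)) hC.2) h).congr ?_
          intro x
          constructor
          · rintro (h' | h')
            · exact fun hx => h' (hDC x hx)
            · exact h'.2
          · intro h'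
            by_cases hx : C x
            · exact Or.inr ⟨hx, h'⟩
            · exact Or.inl hx

/-- Conditions for the descending sequence. -/
structure Cond (U : ℕ → Prop) (R : ℕ → ℕ → Prop) (C : ℕ → Prop) (S : Idl U) where
  σ : List ℕ
  K : ℕ → Prop
  T : Idl U
  le : S ≤ T
  dl : Dl T.car K
  sub : ∀ x, K x → C x
  mem : ∀ x ∈ σ, C x
  desc : σ.Pairwise (fun a b => R b a)
  below : ∀ x, K x → ∀ y ∈ σ, R x y
  ns : ¬ Sol R K T

/-- the order of the conditions -/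
def Cond.Le {R : ℕ → ℕ → Prop} {C : ℕ → Prop} {S : Idl U} (p q : Cond U R C S) : Prop :=
  (∃ τ : List ℕ, q.σ = p.σ ++ τ ∧ ∀ x ∈ τ, p.K x) ∧ (∀ x, q.K x → p.K x) ∧ p.T ≤ q.T

theorem Cond.Le.refl {R : ℕ → ℕ → Prop} {C : ℕ → Prop} {S : Idl U} (p : Cond U R C S) : p.Le p :=
  ⟨⟨[], by simp, by simp⟩, fun _ h => h, le_refl _⟩

theorem Cond.Le.trans {R : ℕ → ℕ → Prop} {C : ℕ → Prop} {S : Idl U} (p q r : Cond U R C S)
    (h1 : p.Le q) (h2 : q.Le r) : p.Le r := by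
  obtain ⟨⟨τ, e, hτ⟩, hK, hT⟩ := h1
  obtain ⟨⟨τ', e', hτ'⟩, hK', hT'⟩ := h2
  refine ⟨⟨τ ++ τ', by rw [e', e, List.append_assoc], fun x hx => ?_⟩,
    fun x hx => hK x (hK' x hx), le_trans hT hT'⟩
  rcases List.mem_append.1 hx with h | h
  · exact hτ x h
  · exact hK x (hτ' x h)

/-- extending a condition -/
theorem Cond.exists_ext {R : ℕ → ℕ → Prop} {C : ℕ → Prop} {S : Idl U} (p : Cond U R C S)
    (τ : List ℕ) (K : ℕ → Prop) (T : Idl U) (hT : p.T ≤ T) (hK : Dl T.car K) (hτ : ∀ x ∈ τ, p.K x)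
    (hτd : τ.Pairwise (fun a b => R b a)) (hKK : ∀ x, K x → p.K x)
    (hKτ : ∀ x, K x → ∀ y ∈ τ, R x y) (hns : ¬ Sol R K T) :
    ∃ q : Cond U R C S, p.Le q ∧ q.σ = p.σ ++ τ ∧ q.K = K := by
  refine ⟨⟨p.σ ++ τ, K, T, le_trans p.le hT, hK, fun x hx => p.sub x (hKK x hx), ?_, ?_, ?_, hns⟩,
    ⟨⟨τ, rfl, hτ⟩, hKK, hT⟩, rfl, rfl⟩
  · intro x hx
    rcases List.mem_append.1 hx with h | h
    · exact p.mem x h
    · exact p.sub x (hτ x h)
  · rw [List.pairwise_append]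
    exact ⟨p.desc, hτd, fun a ha b hb => p.below b (hτ b hb) a ha⟩
  · intro x hx y hy
    rcases List.mem_append.1 hy with h | h
    · exact p.below x (hKK x hx) y h
    · exact hKτ x hx y h

/-- The main lemma, from Lemma 4. -/
theorem main_sol_of_lemma4 (h4 : Lemma4 U) {R : ℕ → ℕ → Prop} (hR : SPO R) (S : Idl U)
    (hU : Sg S.car (fun n : ℕ => ¬ U n)) (hRS : Dl S.car (fun x : ℕ × ℕ => R x.1 x.2))
    (C : ℕ → Prop) (hC : Dl S.car C) (hcod : Coded U R C S.car) : Sol R C S := by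
  classical
  by_contra hns
  choose en hen using fun T : Idl U => T.exists_enum
  let q₀ : Cond U R C S := ⟨[], C, S, le_refl S, hC, fun _ h => h, by simp, List.Pairwise.nil,
    by simp, hns⟩
  let D : Cond U R C S → ℕ → Cond U R C S → Prop := fun q n r =>
    match n with
    | 0 => q.σ.length < r.σ.length
    | m + 1 => ∀ f : ℕ → ℕ, Thr R r.σ r.K f →
        ¬ ∀ n, (U n ↔ ∃ s, en q.T m (encode ((pre f s, n) : List ℕ × ℕ)))
  have hgen := generic (Cond.Le (U := U) (R := R) (C := C) (S := S)) Cond.Le.refl Cond.Le.trans D ?_ q₀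
  swap
  · intro q p n hqp
    have hRp : Dl p.T.car (fun x : ℕ × ℕ => R x.1 x.2) := hRS.mono p.le
    have hUp : Sg p.T.car (fun n : ℕ => ¬ U n) := Sg.mono p.le hU
    cases n with
    | zero =>
      obtain ⟨a, ha, T, hT, hnT⟩ := lemma2 h4 hR p.T hRp p.dl p.ns
      obtain ⟨r, hpr, hσ, hK⟩ := p.exists_ext [a] (fun y => p.K y ∧ R y a) T hT
        (T.sig.dand (p.dl.mono hT) (T.sig.dcomp (f := fun x : ℕ => (x, a)) (hRp.mono hT)
          (Primrec.pair Primrec.id (Primrec.const a)))) (by simpa using ha) (List.pairwise_singleton _ _)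
        (fun x h => h.1) (fun x h y hy => by rw [List.mem_singleton.1 hy]; exact h.2) hnT
      refine ⟨r, hpr, ?_⟩
      change q.σ.length < r.σ.length
      obtain ⟨τ, hτ, _⟩ := hqp.1
      rw [hσ, hτ, List.length_append, List.length_append, List.length_singleton]
      omega
    | succ m =>
      have hB : Sg p.T.car (fun x : List ℕ × ℕ => en q.T m (encode x)) := by
        have : en q.T m ∈ q.T.car := (hen q.T _).2 ⟨m, rfl⟩
        exact p.T.sig.comp (sg_nat.2 (hqp.2.2 this)) Primrec.encode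
      obtain ⟨τ, K, T, hT, hK, hτ, hτd, hKK, hKτ, hnT, hf⟩ := lemma3 h4 hR p.T hUp hRp p.σ p.dl
        p.ns hB
      obtain ⟨r, hpr, hσ, hK'⟩ := p.exists_ext τ K T hT hK hτ hτd hKK hKτ hnT
      refine ⟨r, hpr, ?_⟩
      change ∀ f : ℕ → ℕ, Thr R r.σ r.K f → _
      rw [hσ, hK']
      exact hf
  obtain ⟨s, hs0, hs, hD⟩ := hgen
  have hmono : ∀ i j, i ≤ j → (s i).Le (s j) := by
    intro i j hij
    induction j, hij using Nat.le_induction with
    | base => exact Cond.Le.refl _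
    | succ j _ ih => exact Cond.Le.trans _ _ _ ih (hs j)
  have hlen : ∀ n, ∃ k, n < (s k).σ.length := by
    intro n
    induction n with
    | zero =>
      obtain ⟨j, _, h⟩ := hD 0 0
      exact ⟨j, lt_of_le_of_lt (Nat.zero_le _) h⟩
    | succ n ih =>
      obtain ⟨k, hk⟩ := ih
      obtain ⟨j, _, h⟩ := hD k 0
      exact ⟨j, lt_of_le_of_lt hk h⟩
  have hget : ∀ i j k, i < (s j).σ.length → i < (s k).σ.length → (s j).σ[i]? = (s k).σ[i]? := by
    have key : ∀ i j k, j ≤ k → i < (s j).σ.length → (s j).σ[i]? = (s k).σ[i]? := by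
      intro i j k hjk hi
      obtain ⟨τ, hτ, _⟩ := (hmono j k hjk).1
      rw [hτ, List.getElem?_append_left hi]
    intro i j k hj hk
    rcases le_total j k with h | h
    · exact key i j k h hj
    · exact (key i k j h hk).symm
  choose kk hkk using hlen
  let f : ℕ → ℕ := fun i => (s (kk i)).σ[i]'(hkk i)
  have hf : ∀ i j, i < (s j).σ.length → (s j).σ[i]? = some (f i) := by
    intro i j hi
    rw [hget i j (kk i) hi (hkk i)]
    exact List.getElem?_eq_getElem _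
  have hdesc : ∀ i, R (f (i + 1)) (f i) := by
    intro i
    have h1 := hf (i + 1) (kk (i + 1)) (hkk (i + 1))
    have h2 := hf i (kk (i + 1)) (lt_trans (Nat.lt_succ_self i) (hkk (i + 1)))
    have h3 := (List.pairwise_iff_getElem.1 (s (kk (i + 1))).desc) i (i + 1)
      (lt_trans (Nat.lt_succ_self i) (hkk (i + 1))) (hkk (i + 1)) (Nat.lt_succ_self i)
    rw [List.getElem?_eq_getElem (hkk (i + 1))] at h1
    rw [List.getElem?_eq_getElem (lt_trans (Nat.lt_succ_self i) (hkk (i + 1)))] at h2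
    rw [Option.some.inj h1, Option.some.inj h2] at h3
    exact h3
  have hthr : ∀ j, Thr R (s j).σ (s j).K f := by
    intro j
    refine ⟨fun i hi => hf i j hi, fun i hi => ?_, hdesc⟩
    have hlt : (s j).σ.length < (s (kk i)).σ.length := lt_of_le_of_lt hi (hkk i)
    have hjk : j ≤ kk i := by
      by_contra hc
      obtain ⟨τ, hτ, _⟩ := (hmono (kk i) j (by omega)).1
      rw [hτ, List.length_append] at hlt
      omega
    obtain ⟨τ, hτ, hτK⟩ := (hmono j (kk i) hjk).1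
    have h1 := hf i (kk i) (hkk i)
    rw [hτ, List.getElem?_append_right hi] at h1
    exact hτK _ (List.mem_of_getElem? h1)
  have hfC : Desc R C f := by
    refine ⟨fun i => ?_, hdesc⟩
    exact (s (kk i)).mem _ (List.mem_of_getElem? (hf i (kk i) (hkk i)))
  obtain ⟨B, hB, hUB⟩ := hcod f hfC
  obtain ⟨m, hm⟩ := (hen S _).1 hB
  obtain ⟨j, _, hj⟩ := hD 0 (m + 1)
  have hj' : ∀ f : ℕ → ℕ, Thr R (s j).σ (s j).K f →
        ¬ ∀ n, (U n ↔ ∃ t, en (s 0).T m (encode ((pre f t, n) : List ℕ × ℕ))) := hj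
  apply hj' f (hthr j)
  intro n
  rw [hUB n, hs0]
  change (∃ t, B (pre f t, n)) ↔ ∃ t, en S m (encode ((pre f t, n) : List ℕ × ℕ))
  rw [hm]
  simp only [encodek, Option.some.injEq, exists_eq_left']

end EXT88
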